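import Pool.Agent.N328.GL.Main
import Pool.Agent.TH362.FP.Pos

set_option autoImplicit false

/-!
# Nowhere-zero 5-flows in almost all lifts of every bridgeless graph (MP_974d84_co)

Let `B` be a connected bridgeless multigraph of minimum degree at least three. All but a proportion
`C / N` of the `N`-lifts of `B` have a nowhere-zero 5-flow, and the characteristic polynomial of
their bond matroids is positive at all integers `q ≥ 5`.

Proof. (1) Splitting vertices of degree at least four reduces the theorem to cubic graphs
(`N693/GL`, `N768/GL`, `N42/GL`). (2) Let `B` be cubic with a 2-factor `F₀` which meets all the cuts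
with three edges. By union bounds almost all lifts `G` of `B` are edge expanders (with a constant
that depends on `B` only), and every set of at most `k` vertices of `G` spans at most as many edges
as it has vertices, for a prescribed constant `k` (`N849/LF`, `N492/LF`). The lift `F` of `F₀` is a
2-factor of `G` all of whose odd cycles have at least five vertices (`N622/LF`). (3) The odd cycles
of `F` have vertices which are pairwise far apart (Haxell's theorem on independent transversals,
library `H185C`, `H185E`), these are paired, and a flow with prescribed boundary at these vertices,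
which together with `F` gives a nowhere-zero 5-flow, exists by the cut condition, since a cut which
separates many of these vertices is large (`N835/LF`).
-/

namespace Pool.Agent.Results.MP_974d84_co.AlmostAllLifts

open Finset Pool.Agent.H160R2.HF Pool.Agent.N328.LF

/-- The number of the components of the graph with the vertices `V` and the edges `A`. -/
noncomputable def components {V E : Type} (src dst : E → V) (A : Finset E) : ℕ :=
  Nat.card (SimpleGraph.fromRel
    (fun u v : V => ∃ e ∈ A, src e = u ∧ dst e = v)).ConnectedComponent

/-- The rank of `A` in the cycle matroid of the graph. -/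
noncomputable def cycleRank {V E : Type} [Fintype V] (src dst : E → V) (A : Finset E) : ℕ :=
  Fintype.card V - components src dst A

/-- The rank of `A` in the bond matroid of the graph (the dual of the cycle matroid). -/
noncomputable def bondRank {V E : Type} [Fintype V] [Fintype E] [DecidableEq E] (src dst : E → V)
    (A : Finset E) : ℕ :=
  A.card + cycleRank src dst Aᶜ - cycleRank src dst Finset.univ

/-- The characteristic polynomial of the bond matroid at the integer `x`. -/
noncomputable def bondCharPoly {V E : Type} [Fintype V] [Fintype E] [DecidableEq E]
    (src dst : E → V) (x : ℤ) : ℤ :=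
  ∑ A : Finset E, (-1) ^ A.card * x ^ (bondRank src dst Finset.univ - bondRank src dst A)

/-- Let `B` be a finite connected bridgeless multigraph in which every vertex has degree at least
three. There is a constant `C` such that for all `N ≥ 1` the number of the choices of permutations
`p e` of `Fin N`, `e` an edge of `B`, for which the `N`-lift `lift B p` of `B` does not have a
nowhere-zero 5-flow with positive characteristic polynomial of the bond matroid at all integers
`q ≥ 5` is at most `C / N` times the number `(N!) ^ |E|` of all choices. -/
theorem result (V E : Type) [Fintype V] [Fintype E] [DecidableEq V] [DecidableEq E]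
    (B : OrGraph V E) (hB : Connected B) (hb : B.Bridgeless) (h3 : ∀ v, 3 ≤ B.deg univ v) :
    ∃ C : ℝ, ∀ N : ℕ, 1 ≤ N →
      (({p : E → Equiv.Perm (Fin N) | ¬ ((∃ φ : E × Fin N → ℤ, (lift B p).IsFlow φ ∧
          ∀ x, 1 ≤ |φ x| ∧ |φ x| ≤ 4) ∧
        ∀ q : ℕ, 5 ≤ q → 0 < bondCharPoly (lift B p).t (lift B p).h q)}.ncard : ℕ) : ℝ) ≤
        C / N * ((N.factorial : ℝ) ^ Fintype.card E) := by
  obtain ⟨C, hC⟩ := Pool.Agent.N328.GL.half V E B hB hb h3
  refine ⟨C, fun N hN => le_trans ?_ (hC N hN)⟩
  rw [Nat.cast_le]
  apply Set.ncard_le_ncard _ (Set.toFinite _)
  rintro p hp ⟨φ₂, φ₄, h⟩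
  obtain ⟨φ, h1, h2⟩ := Pool.Agent.H185C.five_flow (lift B p) φ₂ φ₄ h
  exact hp ⟨⟨φ, h1, h2⟩, fun q hq =>
    Pool.Agent.TH362.FP.chr_pos (lift B p).t (lift B p).h φ h2 h1 q hq⟩

end Pool.Agent.Results.MP_974d84_co.AlmostAllLifts
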