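import Mathlib
import Pool.Agent.N470.FZ.Six

set_option autoImplicit false

/-!
# Nowhere-zero 6-flows of bridgeless graphs with few values `5` (MP_974d84_co)

Every finite bridgeless multigraph with nonnegative weights on the edges has a nowhere-zero 6-flow
`f` (an integer flow with `1 ≤ |f| ≤ 5`) such that the edges with `|f| = 5` have at most `1 / 15` of
the weight.  (Tutte's 5-flow conjecture says that there is an `f` without such edges.)

Proof.  By Seymour's theorem (starting files: circular flows below six) there are a set `A`, the
support of a flow `α` with values `0, 1, -1`, and a set `B`, the support of a flow `β` with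
`|β| ≤ 2`, such that `A ∪ B = E`.  Choose `A` and `B` such that `w(A ∩ B)` is as small as possible.
(1) The flows `β`, `β + α`, `β + 2 α` modulo three are nonzero outside `A`, and each edge of `A` is
a zero of exactly one of them.  Hence `w(A ∩ B) ≤ 2 w(A) / 3`.
(2) `B` is the union of two even edge sets `B_1, B_2`; the sets `A`, `A Δ B_1`, `A Δ B_2`,
`A Δ B_1 Δ B_2` contain the complement of `B`, and each edge of `B` lies in exactly two of them.
Hence `w(A ∩ B) ≤ w(B) / 2`.
Since `w(A) + w(B) = w(E) + w(A ∩ B)`, this gives `w(A ∩ B) ≤ 2 w(E) / 5`.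
(3) Let `P` be a flow with `|2 P - β| ≤ 1`.  The three flows `β`, `3 P - 2 β`, `β - 3 P` are
congruent modulo three, have values at most two, and each edge of `B` has the value `2` or `-2` in
exactly one of them.  So among the six flows `± 3 α + φ`, `φ` one of these three flows, all of which
are nowhere-zero 6-flows, exactly one has the value `5` or `-5` at a given edge of `A ∩ B` and none
at the other edges; the best one has weight at most `w(A ∩ B) / 6 ≤ w(E) / 15` of such edges.
-/

namespace Pool.Agent.Results.MP_974d84_co.FewFives

variable {V E : Type}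

/-- The edges with exactly one end in `X`. -/
def boundary [DecidableEq V] [Fintype E] (src dst : E → V) (X : Finset V) : Finset E :=
  Finset.univ.filter (fun e => ¬ (src e ∈ X ↔ dst e ∈ X))

/-- Kirchhoff's law. -/
def IsFlow [DecidableEq V] [Fintype E] (src dst : E → V) (f : E → ℤ) : Prop :=
  ∀ v : V, ∑ e ∈ Finset.univ.filter (fun e => src e = v), f e
    = ∑ e ∈ Finset.univ.filter (fun e => dst e = v), f e

theorem isFlow_iff [DecidableEq V] [Fintype E] (src dst : E → V) (f : E → ℤ) :
    IsFlow src dst f ↔
      ∀ v, ∑ e, f e * ((if src e = v then 1 else 0) - (if dst e = v then 1 else 0)) = 0 := by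
  unfold IsFlow
  refine forall_congr' fun v => ?_
  rw [Finset.sum_filter, Finset.sum_filter, ← sub_eq_zero, ← Finset.sum_sub_distrib]
  have : ∀ e, (if src e = v then f e else 0) - (if dst e = v then f e else 0)
      = f e * ((if src e = v then 1 else 0) - (if dst e = v then 1 else 0)) := by
    intro e
    by_cases h1 : src e = v <;> by_cases h2 : dst e = v <;> simp [h1, h2]
  rw [Finset.sum_congr rfl (fun e _ => this e)]

theorem result :
    ∀ (V E : Type) [Fintype V] [DecidableEq V] [Fintype E] [DecidableEq E] (src dst : E → V)
      (w : E → ℝ),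
      (∀ X : Finset V, (boundary src dst X).card ≠ 1) →
      (∀ e, 0 ≤ w e) →
      ∃ f : E → ℤ, IsFlow src dst f ∧ (∀ e, 1 ≤ |f e| ∧ |f e| ≤ 5) ∧
        15 * ∑ e ∈ Finset.univ.filter (fun e => |f e| = 5), w e ≤ ∑ e, w e := by
  intro V E _ _ _ _ src dst w hb hw
  obtain ⟨f, hf1, hf2, hf3⟩ := Pool.Agent.N470.FZ.few_fives src dst hb w hw
  exact ⟨f, (isFlow_iff src dst f).mpr hf1, hf2, hf3⟩

end Pool.Agent.Results.MP_974d84_co.FewFives
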