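import Mathlib
import Pool.Agent.TH497.PW.IntFlow
import Pool.Agent.TH362.FP.Pos
import Pool.Agent.Y335.FL.Main
import Pool.Agent.N393.AHL.LocM

set_option autoImplicit false

/-!
# Nowhere-zero 5-flows in graphs with locally few circuits after the deletion of 31 vertices
(MP_974d84_co)

Let `G` be a bridgeless multigraph and let `S` be a set of at most `31` vertices.  If every component
of `G - S` has cyclomatic number at most `b` (loops are not counted), where `b ≤ 63` and
`31 ^ 6 b ≤ (62 - |S|) ^ 6`, then `G` has a nowhere-zero 5-flow, and the characteristic polynomial of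
its bond matroid is positive at all integers `q ≥ 5`.  So for `b = 1, 2, 3, 4, 5, 6, 7, 8, 9, 10` one
may delete `31, 27, 24, 22, 21, 20, 19, 18, 17, 16` vertices.  In particular this holds for all
graphs which become pseudoforests (all components have at most one circuit) by the deletion of at
most `31` vertices.  The number of the components of `G - S`, and with it the number of the
independent circuits of `G - S`, is arbitrary, as are the degrees, the connectivity and the order.

There is no condition on the circuits of those components of `G - S` all whose vertices of degree at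
least three are adjacent to `S`.

Proof.  The class is closed under contractions (not under deletions).  Let `G` be a counterexample
with as few edges as possible.  Circuits with at most eleven edges can be contracted (library
`Y335/FL` of helper335), and so can one of two edges which form a cut; hence `G` is simple, has girth
at least twelve, and all degrees are at least three (apart from isolated vertices).

(1) Let `C` be a component of `G - S`.  Vertices with at most one neighbour in the rest are removed
as long as possible.  If `n'` vertices with `e'` edges remain and `y = 2 e' / n' - 1` then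
`n' ≥ 2 (1 + y + ... + y ^ 5)` by the Moore bound for irregular graphs of girth twelve (Alon, Hoory
and Linial), and so `y ^ 6 ≤ 1 + e' - n' ≤ b` and `y ≤ (62 - |S|) / 31`.  It follows that `C` has
average degree at most `1 + (62 - |S|) / 31`, so that at least `|C| |S| / 31` edges join `C` to `S`.

(2) So at least `(n - |S|) |S| / 31` edges leave `S`, where `n` is the number of the vertices which
are not isolated.  But all degrees are at most `(n - 33) / 31`: the vertices at distance at most five
from a vertex of degree `d` and the vertices at distance six behind one of its neighbours are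
`1 + 31 d + 32` different vertices.  (If `S` is empty then (1) gives average degree less than three.)
-/

namespace Pool.Agent.Results.MP_974d84_co.LocallyFewCircuits

open Pool.Agent.TH497.PW

variable {V E : Type}

/-- The edges with exactly one end in `X`. -/
def boundary [DecidableEq V] [Fintype E] (src dst : E → V) (X : Finset V) : Finset E :=
  Finset.univ.filter (fun e => ¬ (src e ∈ X ↔ dst e ∈ X))

/-- Kirchhoff's law. -/
def IsFlow [DecidableEq V] [Fintype E] (src dst : E → V) (f : E → ℤ) : Prop :=
  ∀ v : V, ∑ e ∈ Finset.univ.filter (fun e => src e = v), f e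
    = ∑ e ∈ Finset.univ.filter (fun e => dst e = v), f e

/-- The degree of `v`; loops are not counted. -/
def properDegree [DecidableEq V] [Fintype E] (src dst : E → V) (v : V) : ℕ :=
  (Finset.univ.filter (fun e => src e ≠ dst e ∧ (src e = v ∨ dst e = v))).card

/-- The number of the components of the graph with the vertices `V` and the edges `A`. -/
noncomputable def components (src dst : E → V) (A : Finset E) : ℕ :=
  Nat.card (SimpleGraph.fromRel
    (fun u v : V => ∃ e ∈ A, src e = u ∧ dst e = v)).ConnectedComponent

/-- The rank of `A` in the cycle matroid of the graph. -/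
noncomputable def cycleRank [Fintype V] (src dst : E → V) (A : Finset E) : ℕ :=
  Fintype.card V - components src dst A

/-- The rank of `A` in the bond matroid of the graph (the dual of the cycle matroid). -/
noncomputable def bondRank [Fintype V] [Fintype E] [DecidableEq E] (src dst : E → V)
    (A : Finset E) : ℕ :=
  A.card + cycleRank src dst Aᶜ - cycleRank src dst Finset.univ

/-- The characteristic polynomial of the bond matroid at the integer `x`. -/
noncomputable def bondCharPoly [Fintype V] [Fintype E] [DecidableEq E] (src dst : E → V)
    (x : ℤ) : ℤ :=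
  ∑ A : Finset E, (-1) ^ A.card * x ^ (bondRank src dst Finset.univ - bondRank src dst A)

theorem isFlow_iff [DecidableEq V] [Fintype E] (src dst : E → V) (f : E → ℤ) :
    IsFlow src dst f ↔
      ∀ v, ∑ e, f e * ((if src e = v then 1 else 0) - (if dst e = v then 1 else 0)) = 0 := by
  unfold IsFlow
  refine forall_congr' fun v => ?_
  rw [Finset.sum_filter, Finset.sum_filter, ← sub_eq_zero, ← Finset.sum_sub_distrib]
  have : ∀ e, (if src e = v then f e else 0) - (if dst e = v then f e else 0)
      = f e * ((if src e = v then 1 else 0) - (if dst e = v then 1 else 0)) := by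
    intro e
    by_cases h1 : src e = v <;> by_cases h2 : dst e = v <;> simp [h1, h2]
  rw [Finset.sum_congr rfl (fun e _ => this e)]

theorem nzf [Fintype V] [DecidableEq V] [Fintype E] [DecidableEq E] (src dst : E → V)
    (h : Pool.Agent.TH676.Z.FlowOn src dst ∅ ∅) : NZF src dst := by
  obtain ⟨f, h1, _, h3⟩ := h
  refine ⟨f, fun e => h3 e (Finset.notMem_empty _) (Finset.notMem_empty _), fun x => ?_⟩
  rw [← h1 x]
  unfold Pool.Agent.TH676.Z.bd
  refine Finset.sum_congr rfl fun e _ => ?_
  unfold ic
  by_cases h4 : src e = x <;> by_cases h5 : dst e = x <;> simp [h4, h5]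

theorem charPoly_pos [Fintype V] [DecidableEq V] [Fintype E] [DecidableEq E] (src dst : E → V)
    (f : E → ℤ) (h1 : IsFlow src dst f) (h2 : ∀ e, 1 ≤ |f e| ∧ |f e| ≤ 4) (q : ℕ) (hq : 5 ≤ q) :
    0 < bondCharPoly src dst q :=
  Pool.Agent.TH362.FP.chr_pos src dst f h2 h1 q hq

/-- There is an edge between `x` and `y`, and `x ≠ y`. -/
def Adjacent (src dst : E → V) (x y : V) : Prop :=
  x ≠ y ∧ ∃ e, (src e = x ∧ dst e = y) ∨ (src e = y ∧ dst e = x)

/-- There are disjoint sets `S` and `Z` of vertices, a labelling `κ` of the vertices and a number
`b ≤ 63` with `|S| ≤ 31` and `31 ^ 6 b ≤ (62 - |S|) ^ 6` such that all neighbours of a vertex `x` of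
`Z` are in `S`, or are in `Z` and have the same label as `x`; every set `Y` of vertices of `Z` with
the same label contains both ends of at most `|Y| + b - 1` edges (loops are not counted); and every
vertex of degree at least three outside `S` and `Z` is adjacent to a vertex of `S`.  (If `κ` is
constant exactly on the components of `G - S` which are in `Z` then the second condition says that
their cyclomatic numbers are at most `b`.) -/
def LocallyFewCircuits [Fintype V] [DecidableEq V] [Fintype E] (src dst : E → V) : Prop :=
  ∃ (b : ℕ) (S Z : Finset V) (κ : V → V),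
    b ≤ 63 ∧ S.card ≤ 31 ∧ 31 ^ 6 * b ≤ (62 - S.card) ^ 6 ∧ Disjoint S Z ∧
    (∀ x ∈ Z, ∀ y, Adjacent src dst x y → y ∈ S ∨ (y ∈ Z ∧ κ y = κ x)) ∧
    (∀ Y ⊆ Z, (∀ x ∈ Y, ∀ y ∈ Y, κ x = κ y) →
      (Finset.univ.filter (fun e => src e ∈ Y ∧ dst e ∈ Y ∧ src e ≠ dst e)).card + 1 ≤
        Y.card + b) ∧
    ∀ x, x ∉ S → x ∉ Z → 3 ≤ properDegree src dst x → ∃ y ∈ S, Adjacent src dst x y

theorem result :
    ∀ (V E : Type) [Fintype V] [DecidableEq V] [Fintype E] [DecidableEq E] (src dst : E → V),
      LocallyFewCircuits src dst →
      (∀ Y : Finset V, (boundary src dst Y).card ≠ 1) →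
      (∃ f : E → ℤ, IsFlow src dst f ∧ ∀ e, 1 ≤ |f e| ∧ |f e| ≤ 4) ∧
      ∀ q : ℕ, 5 ≤ q → 0 < bondCharPoly src dst q := by
  intro V E _ _ _ _ src dst hcl hb
  have hbr : Pool.Agent.TH676.Z.Br src dst ∅ ∅ := fun Y _ => by
    rw [Finset.sdiff_empty]; exact hb Y
  have hfl : Pool.Agent.TH676.Z.FlowOn src dst ∅ ∅ := by
    obtain ⟨b, S, Z, κ, hb, hS, hSb, hSZ, h1, h2, h3⟩ := hcl
    exact Pool.Agent.N393.AHL.flow_of_ClL Pool.Agent.Y335.FL.contract_all src dst
      ⟨b, S, Z, κ, hb, hS, hSb, hSZ, h1, h2, h3⟩ hbr
  obtain ⟨F, hF, hF0⟩ := int_flow src dst (nzf src dst hfl)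
  have hF1 := (isFlow_iff src dst F).mpr hF0
  exact ⟨⟨F, hF1, hF⟩, fun q hq => charPoly_pos src dst F hF1 hF q hq⟩

/-- The numbers of vertices which may be deleted for `b = 1, ..., 10`. -/
theorem numbers : ∀ p ∈ [(1, 31), (2, 27), (3, 24), (4, 22), (5, 21), (6, 20), (7, 19), (8, 18),
    (9, 17), (10, 16)], 31 ^ 6 * p.1 ≤ (62 - p.2) ^ 6 := by
  decide

end Pool.Agent.Results.MP_974d84_co.LocallyFewCircuits
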