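import Mathlib
import Pool.Agent.TH497.PW.IntFlow
import Pool.Agent.TH362.FP.Pos
import Pool.Agent.Y335.FL.Main
import Pool.Agent.Y335.FL.Order
import Pool.Agent.N463.OV.Odd

set_option autoImplicit false

/-!
# Nowhere-zero 5-flows in graphs with at most 125 odd pieces (MP_974d84_co)

Let `G` be a bridgeless multigraph and let `C_1, ..., C_m` be edge sets, each with at most eleven
edges outside the union of the earlier ones and without a bridge modulo this union (for example
cycles), and let `F` be their union.  If at most `125` components of `(V, F)` have an odd number of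
boundary edges, then `G` has a nowhere-zero 5-flow, and the characteristic polynomial of the bond
matroid of `G` is positive at all integers `q ≥ 5`.

For `m = 0` (`oddVertices`) the components are the vertices: every bridgeless multigraph with at
most `125` (hence at most `124`) vertices of odd degree has a nowhere-zero 5-flow.  The number of
the vertices of even degree and all degrees are arbitrary.

Proof.  (1) Circuits with at most eleven edges are contractible (starting files `Y335/FL`), so the
sets `C_m, ..., C_1` may be contracted (`R926/SC`); the vertices of odd degree of `G / F` are the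
components of `(V, F)` with an odd boundary.  (2) Let `H` be a bridgeless multigraph with at most
`125` vertices of odd degree.  At a vertex of even degree there is a pair of edges which can be
split off such that no bridge arises (the case `r = 3` of the splitting lemma of Zhang in
`H185F`); this does not change the parities of the degrees, and flows can be lifted.  When all
vertices of even degree are isolated, at most `125` vertices have degree at least three, and the
theorem on the order of a minimal counterexample (girth twelve, hence at least `126` vertices)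
applies.
-/

namespace Pool.Agent.Results.MP_974d84_co.OddPieces

open Pool.Agent.TH497.PW

variable {V E : Type}

/-- The edges with exactly one end in `X`. -/
def boundary [DecidableEq V] [Fintype E] (src dst : E → V) (X : Finset V) : Finset E :=
  Finset.univ.filter (fun e => ¬ (src e ∈ X ↔ dst e ∈ X))

/-- Kirchhoff's law. -/
def IsFlow [DecidableEq V] [Fintype E] (src dst : E → V) (f : E → ℤ) : Prop :=
  ∀ v : V, ∑ e ∈ Finset.univ.filter (fun e => src e = v), f e
    = ∑ e ∈ Finset.univ.filter (fun e => dst e = v), f e

/-- The degree of `v` (a loop counts twice). -/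
def degree [DecidableEq V] [Fintype E] (src dst : E → V) (v : V) : ℕ :=
  (Finset.univ.filter (fun e => src e = v)).card + (Finset.univ.filter (fun e => dst e = v)).card

/-- `X` is the vertex set of a component of the graph with the vertex set `V` and the edge set `F`:
a minimal nonempty set which is not left by an edge of `F`. -/
def IsComponent [DecidableEq V] [Fintype E] [DecidableEq E] (src dst : E → V) (F : Finset E)
    (X : Finset V) : Prop :=
  X.Nonempty ∧ Disjoint (boundary src dst X) F ∧
    ∀ Y ⊆ X, Y.Nonempty → Disjoint (boundary src dst Y) F → Y = X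

/-- The number of the components of the graph with the vertices `V` and the edges `A`. -/
noncomputable def components (src dst : E → V) (A : Finset E) : ℕ :=
  Nat.card (SimpleGraph.fromRel
    (fun u v : V => ∃ e ∈ A, src e = u ∧ dst e = v)).ConnectedComponent

/-- The rank of `A` in the cycle matroid of the graph. -/
noncomputable def cycleRank [Fintype V] (src dst : E → V) (A : Finset E) : ℕ :=
  Fintype.card V - components src dst A

/-- The rank of `A` in the bond matroid of the graph (the dual of the cycle matroid). -/
noncomputable def bondRank [Fintype V] [Fintype E] [DecidableEq E] (src dst : E → V)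
    (A : Finset E) : ℕ :=
  A.card + cycleRank src dst Aᶜ - cycleRank src dst Finset.univ

/-- The characteristic polynomial of the bond matroid at the integer `x`. -/
noncomputable def bondCharPoly [Fintype V] [Fintype E] [DecidableEq E] (src dst : E → V)
    (x : ℤ) : ℤ :=
  ∑ A : Finset E, (-1) ^ A.card * x ^ (bondRank src dst Finset.univ - bondRank src dst A)

theorem isFlow_iff [DecidableEq V] [Fintype E] (src dst : E → V) (f : E → ℤ) :
    IsFlow src dst f ↔
      ∀ v, ∑ e, f e * ((if src e = v then 1 else 0) - (if dst e = v then 1 else 0)) = 0 := by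
  unfold IsFlow
  refine forall_congr' fun v => ?_
  rw [Finset.sum_filter, Finset.sum_filter, ← sub_eq_zero, ← Finset.sum_sub_distrib]
  have : ∀ e, (if src e = v then f e else 0) - (if dst e = v then f e else 0)
      = f e * ((if src e = v then 1 else 0) - (if dst e = v then 1 else 0)) := by
    intro e
    by_cases h1 : src e = v <;> by_cases h2 : dst e = v <;> simp [h1, h2]
  rw [Finset.sum_congr rfl (fun e _ => this e)]

theorem nzf [Fintype V] [DecidableEq V] [Fintype E] [DecidableEq E] (src dst : E → V)
    (h : Pool.Agent.TH676.Z.FlowOn src dst ∅ ∅) : NZF src dst := by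
  obtain ⟨f, h1, _, h3⟩ := h
  refine ⟨f, fun e => h3 e (Finset.notMem_empty _) (Finset.notMem_empty _), fun x => ?_⟩
  rw [← h1 x]
  unfold Pool.Agent.TH676.Z.bd
  refine Finset.sum_congr rfl fun e _ => ?_
  unfold ic
  by_cases h4 : src e = x <;> by_cases h5 : dst e = x <;> simp [h4, h5]

theorem charPoly_pos [Fintype V] [DecidableEq V] [Fintype E] [DecidableEq E] (src dst : E → V)
    (f : E → ℤ) (h1 : IsFlow src dst f) (h2 : ∀ e, 1 ≤ |f e| ∧ |f e| ≤ 4) (q : ℕ) (hq : 5 ≤ q) :
    0 < bondCharPoly src dst q :=
  Pool.Agent.TH362.FP.chr_pos src dst f h2 h1 q hq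

theorem isComponent_comp [Fintype V] [DecidableEq V] [Fintype E] [DecidableEq E]
    (src dst : E → V) (F : Finset E) (x : V) :
    IsComponent src dst F (Pool.Agent.R926.SC.comp src dst F x) := by
  have hm := Pool.Agent.R926.SC.mem_comp src dst F x
  refine ⟨⟨x, (hm x).mpr (Relation.EqvGen.refl _)⟩, ?_, ?_⟩
  · rw [Finset.disjoint_left]
    intro e he heF
    unfold boundary at he
    rw [Finset.mem_filter] at he
    apply he.2
    rw [hm, hm]
    have h5 : Relation.EqvGen (fun a b => ∃ e ∈ F, src e = a ∧ dst e = b) (src e) (dst e) :=
      Relation.EqvGen.rel _ _ ⟨e, heF, rfl, rfl⟩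
    exact ⟨fun h => h.trans _ _ _ h5, fun h => h.trans _ _ _ (h5.symm _ _)⟩
  · intro Y hY hne hd
    obtain ⟨y, hy⟩ := hne
    have hstep : ∀ a b, Relation.EqvGen (fun a b => ∃ e ∈ F, src e = a ∧ dst e = b) a b →
        (a ∈ Y ↔ b ∈ Y) := by
      intro a b hab
      induction hab with
      | rel a b hab =>
        obtain ⟨e, heF, rfl, rfl⟩ := hab
        by_contra h
        exact (Finset.disjoint_left.mp hd) (by
          unfold boundary
          rw [Finset.mem_filter]
          exact ⟨Finset.mem_univ _, h⟩) heF
      | refl a => exact Iff.rfl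
      | symm a b _ ih => exact ih.symm
      | trans a b c _ _ i1 i2 => exact i1.trans i2
    refine Finset.Subset.antisymm hY fun z hz => ?_
    have h1 := (hm y).mp (hY hy)
    have h2 := (hm z).mp hz
    exact (hstep y z (h1.symm.trans _ _ _ h2)).mp hy

/-- **Theorem.** -/
theorem result :
    ∀ (V E : Type) [Fintype V] [DecidableEq V] [Fintype E] [DecidableEq E] (src dst : E → V)
      (m : ℕ) (C : Fin m → Finset E),
      (∀ X : Finset V, (boundary src dst X).card ≠ 1) →
      (∀ i, ∀ X : Finset V,
        Disjoint (boundary src dst X) ((Finset.univ.filter (fun j => j < i)).biUnion C) →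
        (boundary src dst X ∩ C i).card ≠ 1) →
      (∀ i, (C i \ (Finset.univ.filter (fun j => j < i)).biUnion C).card ≤ 11) →
      {X : Finset V | IsComponent src dst (Finset.univ.biUnion C) X ∧
        Odd (boundary src dst X).card}.ncard ≤ 125 →
      (∃ f : E → ℤ, IsFlow src dst f ∧ ∀ e, 1 ≤ |f e| ∧ |f e| ≤ 4) ∧
      ∀ q : ℕ, 5 ≤ q → 0 < bondCharPoly src dst q := by
  intro V E _ _ _ _ src dst m C hbr hC hnew hodd
  have hb : Pool.Agent.TH676.Z.Br src dst ∅ ∅ := by
    intro Y _
    rw [Finset.sdiff_empty]
    exact hbr Y
  have ho := Pool.Agent.Y335.FL.order Pool.Agent.Y335.FL.girth_all Pool.Agent.Y335.FL.moore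
  have hp : Pool.Agent.TH676.Z.FlowOn src dst ∅ (Finset.univ.biUnion C) := by
    refine Pool.Agent.N463.OV.odd_pieces ho src dst _ ?_ hb
    refine le_trans ?_ hodd
    rw [← Set.ncard_coe_finset]
    refine Set.ncard_le_ncard ?_ (Set.toFinite _)
    intro X hX
    rw [Finset.mem_coe, Finset.mem_filter, Finset.mem_image] at hX
    obtain ⟨⟨x, -, rfl⟩, h2⟩ := hX
    exact ⟨isComponent_comp src dst _ x, h2⟩
  have hfl : Pool.Agent.TH676.Z.FlowOn src dst ∅ ∅ := by
    refine Pool.Agent.R926.SC.foldL Pool.Agent.Y335.FL.contract_all Pool.Agent.Y335.FL.circEx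
      src dst m C (fun i Y hY => ?_) hnew hp
    have h1 := hC i Y hY
    have h2 : Pool.Agent.TH676.Z.crs src dst Y ∩
        (C i \ (Finset.univ.filter (fun j => j < i)).biUnion C) =
        boundary src dst Y ∩ C i := by
      ext a
      simp only [Finset.mem_inter, Finset.mem_sdiff]
      constructor
      · rintro ⟨h4, h5, -⟩
        exact ⟨h4, h5⟩
      · rintro ⟨h4, h5⟩
        exact ⟨h4, h5, fun h => (Finset.disjoint_left.1 hY) h4 h⟩
    rw [h2]
    exact h1
  obtain ⟨F, hF, hF0⟩ := int_flow src dst (nzf src dst hfl)
  have hF1 := (isFlow_iff src dst F).mpr hF0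
  exact ⟨⟨F, hF1, hF⟩, fun q hq => charPoly_pos src dst F hF1 hF q hq⟩

/-- the parity of the degree and of the boundary of a vertex -/
theorem degree_parity [DecidableEq V] [Fintype E] [DecidableEq E] (src dst : E → V) (v : V) :
    Odd (degree src dst v) ↔ Odd (boundary src dst {v}).card := by
  have h : degree src dst v = (boundary src dst {v}).card +
      2 * (Finset.univ.filter (fun e => src e = v ∧ dst e = v)).card := by
    unfold degree boundary
    rw [Finset.card_filter, Finset.card_filter, Finset.card_filter, Finset.card_filter,
      Finset.mul_sum, ← Finset.sum_add_distrib, ← Finset.sum_add_distrib]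
    refine Finset.sum_congr rfl fun e _ => ?_
    by_cases h1 : src e = v <;> by_cases h2 : dst e = v <;> simp [h1, h2]
  rw [h]
  constructor
  · intro h1
    exact (Nat.odd_add.mp h1).mpr (even_two_mul _)
  · intro h1
    exact h1.add_even (even_two_mul _)

/-- The case `m = 0`: at most 125 vertices of odd degree. -/
theorem oddVertices :
    ∀ (V E : Type) [Fintype V] [DecidableEq V] [Fintype E] [DecidableEq E] (src dst : E → V),
      (∀ X : Finset V, (boundary src dst X).card ≠ 1) →
      {v : V | Odd (degree src dst v)}.ncard ≤ 125 →
      (∃ f : E → ℤ, IsFlow src dst f ∧ ∀ e, 1 ≤ |f e| ∧ |f e| ≤ 4) ∧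
      ∀ q : ℕ, 5 ≤ q → 0 < bondCharPoly src dst q := by
  intro V E _ _ _ _ src dst hbr hodd
  refine result V E src dst 0 (fun i => i.elim0) hbr (fun i => i.elim0) (fun i => i.elim0) ?_
  have h1 : {X : Finset V | IsComponent src dst (Finset.univ.biUnion fun i : Fin 0 => i.elim0) X ∧
      Odd (boundary src dst X).card} ⊆ (fun v : V => ({v} : Finset V)) ''
        {v : V | Odd (degree src dst v)} := by
    rintro X ⟨⟨⟨x, hx⟩, -, hmin⟩, ho⟩
    have h2 : ({x} : Finset V) = X := hmin {x} (Finset.singleton_subset_iff.mpr hx)
      (Finset.singleton_nonempty x) (by simp)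
    refine ⟨x, ?_, h2⟩
    rw [Set.mem_ofPred_eq, degree_parity, h2]
    exact ho
  refine le_trans (Set.ncard_le_ncard h1 (Set.toFinite _)) ?_
  exact le_trans (Set.ncard_image_le (Set.toFinite _)) hodd

end Pool.Agent.Results.MP_974d84_co.OddPieces
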